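import Mathlib

namespace Pool.Agent.Results.MP_294a3d_co.Counter

open SimpleGraph

section Defs
variable {V : Type} [DecidableEq V] [Fintype V]

/-- A pebbling step `u ↦ v` along an edge: remove two pebbles from `u`, add one to `v`. -/
def Step (G : SimpleGraph V) (C C' : V → ℕ) : Prop :=
  ∃ u v, G.Adj u v ∧ 2 ≤ C u ∧
    C' = fun w => if w = u then C u - 2 else if w = v then C v + 1 else C w

/-- `C` is `D`-solvable. -/
def Solvable (G : SimpleGraph V) (D C : V → ℕ) : Prop :=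
  ∃ C', Relation.ReflTransGen (Step G) C C' ∧ ∀ v, D v ≤ C' v

/-- `C` is `D`-maximal: unsolvable, and adding one pebble at any vertex makes it solvable. -/
def DMaximal (G : SimpleGraph V) (D C : V → ℕ) : Prop :=
  ¬ Solvable G D C ∧ ∀ v, Solvable G D (fun w => if w = v then C w + 1 else C w)

/-- `C` is `D`-extremal: `D`-maximal and of maximum size among `D`-maximal configurations. -/
def DExtremal (G : SimpleGraph V) (D C : V → ℕ) : Prop :=
  DMaximal G D C ∧ ∀ C', DMaximal G D C' → ∑ v, C' v ≤ ∑ v, C v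

/-- A vertex is simplicial if its neighbours form a clique. -/
def Simplicial (G : SimpleGraph V) (v : V) : Prop := G.IsClique (G.neighborSet v)

/-- Chordal: no induced cycle of length at least four. -/
def Chordal (G : SimpleGraph V) : Prop := ∀ k, 4 ≤ k → IsEmpty (cycleGraph k ↪g G)

end Defs

def adjB (u v : Fin 6) : Bool :=
  (u ≠ v) && (u = 0 || v = 0 || u.val + 1 = v.val || v.val + 1 = u.val)

/-- The fan: vertex `0` joined to every vertex of the path `1-2-3-4-5`. -/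
def fan : SimpleGraph (Fin 6) where
  Adj u v := adjB u v = true
  symm := ⟨by decide⟩
  loopless := ⟨by decide⟩

instance : DecidableRel fan.Adj := fun u v => inferInstanceAs (Decidable (adjB u v = true))

def tgt : Fin 6 → ℕ := ![0, 1, 0, 0, 0, 1]
def ext : Fin 6 → ℕ := ![0, 0, 0, 7, 0, 0]

lemma step_mono {C C' E : Fin 6 → ℕ} (h : Step fan C C') (hE : ∀ v, C v ≤ E v) :
    ∃ E', Step fan E E' ∧ ∀ v, C' v ≤ E' v := by
  obtain ⟨u, v, huv, h2, rfl⟩ := h
  refine ⟨_, ⟨u, v, huv, le_trans h2 (hE u), rfl⟩, fun w => ?_⟩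
  have h1 := hE u
  have h3 := hE v
  have h4 := hE w
  dsimp only
  split_ifs <;> omega

lemma solv_mono {C E : Fin 6 → ℕ} (h : Solvable fan tgt C) (hE : ∀ v, C v ≤ E v) :
    Solvable fan tgt E := by
  obtain ⟨C', hr, hD⟩ := h
  have : ∃ E', Relation.ReflTransGen (Step fan) E E' ∧ ∀ v, C' v ≤ E' v := by
    clear hD
    induction hr with
    | refl => exact ⟨E, Relation.ReflTransGen.refl, hE⟩
    | tail _ hs ih =>
      obtain ⟨E1, h1, h2⟩ := ih
      obtain ⟨E2, h3, h4⟩ := step_mono hs h2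
      exact ⟨E2, h1.tail h3, h4⟩
  obtain ⟨E', h1, h2⟩ := this
  exact ⟨E', h1, fun v => le_trans (hD v) (h2 v)⟩

def moves : List (Fin 6 × Fin 6) :=
  [(2, 1), (4, 5), (0, 1), (0, 5), (3, 0), (3, 2), (3, 4), (2, 0), (4, 0), (1, 0), (5, 0),
    (4, 3), (2, 3), (1, 2), (5, 4)]

def stepF (C : Fin 6 → ℕ) (u v : Fin 6) : Fin 6 → ℕ :=
  fun w => if w = u then C u - 2 else if w = v then C v + 1 else C w

def sol : ℕ → (Fin 6 → ℕ) → Bool
  | 0, C => decide (1 ≤ C 1) && decide (1 ≤ C 5)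
  | n + 1, C => (decide (1 ≤ C 1) && decide (1 ≤ C 5)) ||
      moves.any fun p => decide (2 ≤ C p.1) && decide (C p.2 ≤ 1) &&
        (decide (p.2 ≠ 1 ∧ p.2 ≠ 5) || decide (C p.2 = 0)) && sol n (stepF C p.1 p.2)

lemma moves_adj : ∀ p ∈ moves, fan.Adj p.1 p.2 := by decide

lemma base {C : Fin 6 → ℕ} (h1 : 1 ≤ C 1) (h5 : 1 ≤ C 5) : Solvable fan tgt C := by
  refine ⟨C, Relation.ReflTransGen.refl, fun v => ?_⟩
  fin_cases v <;> simp [tgt] <;> assumption

lemma sol_sound : ∀ n C, sol n C = true → Solvable fan tgt C := by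
  intro n
  induction n with
  | zero =>
    intro C h
    simp only [sol, Bool.and_eq_true, decide_eq_true_eq] at h
    exact base h.1 h.2
  | succ n ih =>
    intro C h
    simp only [sol, Bool.or_eq_true, Bool.and_eq_true, decide_eq_true_eq, List.any_eq_true] at h
    rcases h with h | ⟨p, hp, ⟨⟨h2, -⟩, -⟩, h3⟩
    · exact base h.1 h.2
    · obtain ⟨C', hr, hD⟩ := ih _ h3
      exact ⟨C', Relation.ReflTransGen.head ⟨p.1, p.2, moves_adj p hp, h2, rfl⟩ hr, hD⟩

set_option synthInstance.maxSize 100000 in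
lemma check : ∀ a ≤ 7, ∀ b ≤ 7 - a, ∀ c ≤ 7 - a - b, ∀ e ≤ 7 - a - b - c,
    ∀ f ≤ 7 - a - b - c - e, 1 ≤ a + b + c + e + f →
      sol 6 ![a, b, c, 7 - a - b - c - e - f, e, f] = true := by
  decide +kernel

lemma check8 : sol 6 ![0, 0, 0, 8, 0, 0] = true := by decide +kernel

lemma main (C : Fin 6 → ℕ) (h : 7 ≤ ∑ v, C v) (hne : C ≠ ext) : Solvable fan tgt C := by
  rw [Fin.sum_univ_six] at h
  by_cases h0 : 1 ≤ C 0 + C 1 + C 2 + C 4 + C 5
  · obtain ⟨a, ha⟩ : ∃ a, a = min (C 0) 7 := ⟨_, rfl⟩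
    obtain ⟨b, hb⟩ : ∃ b, b = min (C 1) (7 - a) := ⟨_, rfl⟩
    obtain ⟨c, hc⟩ : ∃ c, c = min (C 2) (7 - a - b) := ⟨_, rfl⟩
    obtain ⟨e, he⟩ : ∃ e, e = min (C 4) (7 - a - b - c) := ⟨_, rfl⟩
    obtain ⟨f, hf⟩ : ∃ f, f = min (C 5) (7 - a - b - c - e) := ⟨_, rfl⟩
    refine solv_mono (sol_sound _ _ (check a (by omega) b (by omega) c (by omega) e (by omega)
      f (by omega) (by omega))) fun v => ?_
    fin_cases v <;> simp <;> omega
  · have h3 : C 3 ≠ 7 := by
      intro h3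
      apply hne
      funext v
      fin_cases v <;> simp [ext] <;> omega
    refine solv_mono (sol_sound _ _ check8) fun v => ?_
    fin_cases v <;> simp
    omega

def wt (C : Fin 6 → ℕ) : ℕ := 2 * C 0 + 4 * C 1 + 2 * C 2 + C 3 + 2 * C 4 + 4 * C 5

lemma wt_step {C C' : Fin 6 → ℕ} (h : Step fan C C') : wt C' ≤ wt C := by
  obtain ⟨u, v, huv, h2, rfl⟩ := h
  revert huv h2
  fin_cases u <;> fin_cases v <;> simp [wt, fan, adjB] <;> omega

lemma ext_unsolv : ¬ Solvable fan tgt ext := by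
  rintro ⟨C', hr, hD⟩
  have : wt C' ≤ wt ext := by
    clear hD
    induction hr with
    | refl => exact le_rfl
    | tail _ hs ih => exact le_trans (wt_step hs) ih
  have h1 := hD 1
  have h5 := hD 5
  have hw : wt ext = 7 := by decide
  simp only [tgt] at h1 h5
  simp at h1 h5
  rw [hw] at this
  unfold wt at this
  omega

lemma c4 : ∀ a b, fan.Adj a b → ∀ c, fan.Adj b c → ¬ fan.Adj a c → a ≠ c →
    ∀ d, fan.Adj c d → ¬ fan.Adj b d → b ≠ d → ¬ fan.Adj a d := by decide

set_option synthInstance.maxSize 100000 in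
lemma c5 : ∀ a b, fan.Adj a b → ∀ c, fan.Adj b c → ¬ fan.Adj a c → a ≠ c →
    ∀ d, fan.Adj c d → ¬ fan.Adj b d → b ≠ d → ¬ fan.Adj a d →
    ∀ e, fan.Adj d e → ¬ fan.Adj c e → c ≠ e → ¬ fan.Adj a e := by decide +kernel

set_option synthInstance.maxSize 100000 in
lemma c6 : ∀ a b, fan.Adj a b → ∀ c, fan.Adj b c → ¬ fan.Adj a c → a ≠ c →
    ∀ d, fan.Adj c d → ¬ fan.Adj b d → b ≠ d → ¬ fan.Adj a d →
    ∀ e, fan.Adj d e → ¬ fan.Adj c e → c ≠ e →
    ∀ f, fan.Adj e f → ¬ fan.Adj d f → d = f := by decide +kernel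

lemma chordal : Chordal fan := by
  intro k hk
  refine ⟨fun f => ?_⟩
  have hc : k ≤ 6 := by simpa using Fintype.card_le_of_injective _ f.injective
  have hA : ∀ i j, (cycleGraph k).Adj i j → fan.Adj (f i) (f j) := fun i j h => f.map_adj_iff.2 h
  have hN : ∀ i j, ¬ (cycleGraph k).Adj i j → ¬ fan.Adj (f i) (f j) :=
    fun i j h h' => h (f.map_adj_iff.1 h')
  have hI : ∀ i j, i ≠ j → f i ≠ f j := fun i j h h' => h (f.injective h')
  interval_cases k
  · exact c4 (f 0) (f 1) (hA _ _ (by decide)) (f 2) (hA _ _ (by decide)) (hN _ _ (by decide))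
      (hI _ _ (by decide)) (f 3) (hA _ _ (by decide)) (hN _ _ (by decide)) (hI _ _ (by decide))
      (hA _ _ (by decide))
  · exact c5 (f 0) (f 1) (hA _ _ (by decide)) (f 2) (hA _ _ (by decide)) (hN _ _ (by decide))
      (hI _ _ (by decide)) (f 3) (hA _ _ (by decide)) (hN _ _ (by decide)) (hI _ _ (by decide))
      (hN _ _ (by decide)) (f 4) (hA _ _ (by decide)) (hN _ _ (by decide)) (hI _ _ (by decide))
      (hA _ _ (by decide))
  · exact hI 3 5 (by decide) (c6 (f 0) (f 1) (hA _ _ (by decide)) (f 2) (hA _ _ (by decide))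
      (hN _ _ (by decide))
      (hI _ _ (by decide)) (f 3) (hA _ _ (by decide)) (hN _ _ (by decide)) (hI _ _ (by decide))
      (hN _ _ (by decide)) (f 4) (hA _ _ (by decide)) (hN _ _ (by decide)) (hI _ _ (by decide))
      (f 5) (hA _ _ (by decide)) (hN _ _ (by decide)))

lemma conn : fan.Connected := by
  have h : ∀ v, fan.Reachable 0 v := by
    intro v
    by_cases hv : v = 0
    · subst hv; exact Reachable.refl _
    · refine Adj.reachable ?_
      revert v
      decide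
  exact ⟨fun u v => (h u).symm.trans (h v)⟩

theorem result :
    ∃ (n : ℕ) (G : SimpleGraph (Fin n)) (D C : Fin n → ℕ),
      G.Connected ∧ Chordal G ∧ DExtremal G D C ∧
      ∀ C' : Fin n → ℕ, ¬ Solvable G D C' → ∑ v, C v ≤ ∑ v, C' v →
        ∃ v, ¬ Simplicial G v ∧ 2 ≤ C' v := by
  have hs : ∑ v, ext v = 7 := by decide
  refine ⟨6, fan, tgt, ext, conn, chordal, ⟨⟨ext_unsolv, fun v => ?_⟩, fun C' hC' => ?_⟩,
    fun C' hC' hle => ?_⟩
  · apply main
    · revert v; decide
    · intro h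
      have := congrFun h v
      simp at this
  · by_contra hlt
    apply hC'.1
    apply main
    · omega
    · rintro rfl
      exact hlt le_rfl
  · have : C' = ext := by
      by_contra hne
      exact hC' (main C' (by omega) hne)
    subst this
    refine ⟨3, fun h => ?_, by decide⟩
    have h1 : fan.Adj 2 4 := h (show fan.Adj 3 2 by decide) (show fan.Adj 3 4 by decide) (by decide)
    revert h1
    decide

end Pool.Agent.Results.MP_294a3d_co.Counter
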